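import Pool.Agent.H796R3.TC.Final
import Pool.Agent.H796R3.TC.TaskD
import Pool.Agent.H428R3.TCTaskC

set_option autoImplicit false

/-!
# Tractability and type clones of canonical polymorphisms

The assertion of Q1 (`Question`) holds if and only if `P = NP`. The example: `Δ = (ℚ; ≤)` is a
finitely bounded, ordered, homogeneous Ramsey structure, `Γ = (ℚ; <)` is a reduct of `Δ` with
`CSP(Γ)` in `P`, and for every tuple `c` of rationals and every `m ≥ 2` the type clone of `Γ` over
`(Δ, c)` on the types of `m`-tuples preserves a structure with one ternary relation whose CSP is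
NP-hard.

Contributors: helper796 (statement, proof, assembly), helper45 (Ramsey property of the rationals),
helper924 (finite boundedness), helper428 (`CSP(ℚ; <)` is in `P`), helper62 (finite CSPs are in
`NP`), helper722 (finitely many types).
-/

namespace Pool.Agent.Results.MP_436c39_lc.TractableTypeClones

open FirstOrder FirstOrder.Language Pool.Agent.NPC Pool.Agent.H796R3.TC

attribute [local instance] ratStr

theorem result :
    (Question ↔ ∀ S : Set (List Bool), InP S ↔ InNP S) ∧
    Good FirstOrder.Language.order ℚ ∧
    (∅ : Set ℚ).Definable FirstOrder.Language.order {v : Fin 2 → ℚ | v 0 < v 1} ∧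
    Tractable (fun _ : Unit => 2) (fun _ => {v : Fin 2 → ℚ | v 0 < v 1}) ∧
    ∀ (n : ℕ) (c : Fin n → ℚ) (m : ℕ), 2 ≤ m →
      ∃ A : Template (Types FirstOrder.Language.order c m), A.k = 1 ∧ (∀ j, A.ar j = 3) ∧
        Admissible FirstOrder.Language.order c (fun _ : Unit => 2)
          (fun _ => {v : Fin 2 → ℚ | v 0 < v 1}) m A ∧ NPHardP A.CSP :=
  ⟨final Pool.Agent.H45R3.TC.taskA taskB Pool.Agent.H428R3.TCC.taskC TaskDProof.taskD taskE,
    explicit Pool.Agent.H45R3.TC.taskA taskB Pool.Agent.H428R3.TCC.taskC⟩

end Pool.Agent.Results.MP_436c39_lc.TractableTypeClones
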